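import Pool.Agent.L7h3.QX.Stm
import Pool.Agent.L7h32.QD.HC

/-!
# Project QX (helper3), part HCX: the Hecke character of conductor `8 D`
-/

set_option autoImplicit false
set_option linter.unusedSectionVars false
set_option linter.unusedVariables false

open Filter Complex
open scoped Topology PeriodPair Classical

namespace Pool.Agent.L7h93.QX

open Pool.Agent.Y699
open Pool.Agent.L7h3.QX
open Pool.Agent.L7h32.QD (cop_DD exists_sym exists_el DD_erase' DD_dvd_of)
open H385 (ZI RQ im1 nrm)
open Pool.Agent.W164.RC (tc_mul tc_star two2 prim_iff_dvd unit_norm unit_cases)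
open Pool.Agent.H304R2.EC.A1 (prim prim_mul prim_cancel prim_one prim_norm_odd prim_star eq_one_of_prim
  norm_def' re_mul' im_mul' eq_of_dvd prim_ne_zero exists_prim)
open Pool.Agent.H304R3.HK (tc HC LH)

variable {ι : Type} [DecidableEq ι] {pr : ι → ZI}

lemma eight_eq_pi : (8 : ZI) = pi1 ^ 6 * ⟨0, 1⟩ := by decide

lemma cop_D8 (hp : PF pr) (V : Finset ι) (a : ZI) : IsCoprime a (8 * DD pr V) ↔
    a.norm % 2 = 1 ∧ ∀ i ∈ V, ¬ pr i ∣ a := by
  rw [IsCoprime.mul_right_iff, cop_DD hp V, norm_odd_iff]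
  refine and_congr ?_ Iff.rfl
  constructor
  · intro h h'
    have h1 : pi1 ∣ (8 : ZI) := ⟨⟨4, -4⟩, by decide⟩
    exact pi1_not_dvd (isUnit_iff_dvd_one.1 (h.isUnit_of_dvd' h' h1))
  · intro h
    rw [eight_eq_pi]
    refine IsCoprime.mul_right (IsCoprime.pow_right ?_) ?_
    · exact ((pi1_prime.irreducible.coprime_iff_not_dvd).2 h).symm
    · exact ⟨0, ⟨0, -1⟩, by rw [zero_mul, zero_add]; decide⟩

lemma al_norm (a : ZI) : (al a).norm = 1 := by
  unfold al
  induction wq a with
  | zero => rw [pow_zero]; decide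
  | succ n ih => rw [pow_succ, Zsqrtd.norm_mul, ih, im1_norm, one_mul]

lemma al_per {a b : ZI} (h : (8 : ZI) ∣ a - b) : al a = al b := by
  obtain ⟨c, hc⟩ := h
  have e1 : (8 : ZI).re = 8 := rfl
  have e2 : (8 : ZI).im = 0 := rfl
  have h1 : a.im = b.im + 8 * c.im := by
    have := congrArg Zsqrtd.im hc
    rw [im_mul', e1, e2, Zsqrtd.im_sub] at this
    linarith
  have h2 : a.re = b.re + 8 * c.re := by
    have := congrArg Zsqrtd.re hc
    rw [re_mul', e1, e2, Zsqrtd.re_sub] at this
    linarith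
  unfold al
  apply unit_pow_mod im1_norm
  have ha : ((nrm a : ℕ) : ℤ) = a.norm := by exact_mod_cast nrm_cast a
  have hb : ((nrm b : ℕ) : ℤ) = b.norm := by exact_mod_cast nrm_cast b
  rw [norm_def'] at ha hb
  have h3 : ((nrm a : ℕ) : ℤ) = (nrm b : ℕ) +
      16 * (b.re * c.re + 4 * c.re ^ 2 + b.im * c.im + 4 * c.im ^ 2) := by
    rw [ha, hb, h1, h2]; ring
  unfold wq
  omega

lemma XXx_prim (hp : PF pr) (k : ℕ) (V : Finset ι) (e : ι → ℕ) {a : ZI} (ha : prim a) :
    XXx hp k V e a = (starRingEnd ℂ) (tc (al a) ^ k * tc (c4 pr V e a)) := by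
  rw [XXx_apply, un_prim ha, tc_one, one_mul, one_mul]

lemma two2_dvd_eight : two2 ∣ (8 : ZI) := ⟨⟨2, -2⟩, by decide⟩

theorem t_HCX : S_HCX := by
  intro ι _ pr hp V e k hk he
  have hnrm : ∀ a : ZI, IsCoprime a (8 * DD pr V) → ‖XXx hp k V e a‖ = 1 := by
    intro a ha
    obtain ⟨h1, h2⟩ := (cop_D8 hp V a).1 ha
    obtain ⟨u, hu⟩ := exists_Um h1
    have hn := c4_norm hp V e (a := u * a) (fun i hi h => h2 i hi ((qr_unit_mul (hp.pp i) hu.1 a).1 h))
    rw [XXx_apply, un_eq hu, norm_mul, unit_tc hu.1, one_mul, RCLike.norm_conj, norm_mul,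
      unit_tc hn, norm_pow, unit_tc (al_norm _), one_pow, one_mul]
  refine ⟨mul_ne_zero (by decide) (DD_ne hp V), ?_, ?_, hnrm, ?_, ?_⟩
  · intro a b hab
    have h1 : (8 : ZI) ∣ a - b := (dvd_mul_right _ _).trans hab
    have h2 : DD pr V ∣ a - b := (dvd_mul_left _ _).trans hab
    rw [XXx_apply, XXx_apply]
    by_cases ha : ∃ u, Um a u
    · obtain ⟨u, hu⟩ := ha
      have hw : Um b u := hu.per (two2_dvd_eight.trans h1)
      have hc : c4 pr V e (u * a) = c4 pr V e (u * b) := by
        apply c4_per hp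
        rw [← mul_sub]
        exact h2.mul_left _
      have hs : al (u * a) = al (u * b) := by
        apply al_per
        rw [← mul_sub]
        exact h1.mul_left _
      rw [un_eq hu, un_eq hw, hc, hs]
    · have ha' : a.norm % 2 ≠ 1 := fun h => ha (exists_Um h)
      have hb' : b.norm % 2 ≠ 1 := by
        intro hb
        obtain ⟨w, hw⟩ := exists_Um hb
        refine ha ⟨w, hw.per ?_⟩
        have h5 : b - a = -(a - b) := by ring
        rw [h5]
        exact ((two2_dvd_eight.trans h1).neg_right)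
      rw [un_even ha', un_even hb', tc_zero, zero_mul, zero_mul]
  · intro a
    constructor
    · intro h
      rw [cop_D8 hp V]
      have h1 : a.norm % 2 = 1 := by
        by_contra hc
        apply h
        rw [XXx_apply, un_even hc, tc_zero, zero_mul]
      refine ⟨h1, fun i hi hd => h ?_⟩
      rw [XXx_apply, c4_zero e hi (hd.mul_left _), tc_zero, mul_zero, map_zero, mul_zero]
    · intro h h0
      have h3 := hnrm a h
      rw [h0, norm_zero] at h3
      norm_num at h3
  · have h1 : Um ⟨0, 1⟩ ⟨0, -1⟩ := by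
      refine ⟨by decide, ?_⟩
      have : (⟨0, -1⟩ : ZI) * ⟨0, 1⟩ = 1 := by decide
      rw [this]
      exact prim_one
    rw [XXx_apply, un_eq h1]
    have e : (⟨0, -1⟩ : ZI) * ⟨0, 1⟩ = 1 := by decide
    rw [e, c4_one hp, al_one, tc_one, one_pow, one_mul, map_one, mul_one]
    unfold tc
    simp
  · intro d hd hnd
    by_cases hB : ∃ i ∈ V, ¬ pr i ∣ d
    · obtain ⟨i, hi, hid⟩ := hB
      have hcop8 : IsCoprime (pr i) (8 : ZI) := by
        refine ((hp.pp i).pr.irreducible.coprime_iff_not_dvd).2 fun h => ?_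
        apply not_dvd_two2 (hp.pp i)
        have h4 : (8 : ZI) = two2 * (two2 * ⟨0, -1⟩) := by decide
        rw [h4] at h
        rcases (hp.pp i).pr.dvd_or_dvd h with h5 | h5
        · exact h5
        · rcases (hp.pp i).pr.dvd_or_dvd h5 with h6 | h6
          · exact h6
          · exact absurd (isUnit_of_dvd_unit h6 (IsUnit.of_mul_eq_one ⟨0, 1⟩ (by decide)))
              (hp.pp i).pr.not_isUnit
      obtain ⟨a, ha1, ha2, ha3⟩ := exists_el hp (e := e) hi (he i hi) hcop8
      have hdm : d ∣ 8 * DD pr (V.erase i) := by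
        have h1 : d ∣ pr i * (8 * DD pr (V.erase i)) := by
          have e5 : pr i * (8 * DD pr (V.erase i)) = 8 * DD pr V := by
            rw [DD_erase' hp hi]; ring
          rw [e5]; exact hd
        exact ((((hp.pp i).pr.irreducible.coprime_iff_not_dvd).2 hid).symm).dvd_of_dvd_mul_left h1
      have ha4 : (8 : ZI) ∣ a - 1 := (dvd_mul_right _ _).trans ha1
      have hpa : prim a := by
        rw [prim_iff_dvd]
        exact two2_dvd_eight.trans ha4
      have hsd : al a = 1 := by rw [al_per ha4, al_one]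
      refine ⟨a, ?_, hdm.trans ha1, ?_⟩
      · rw [cop_D8 hp V]
        exact ⟨prim_norm_odd hpa, ha2⟩
      · rw [XXx_prim hp k V e hpa, hsd, tc_one, one_pow, one_mul]
        intro h5
        apply ha3
        apply tc_inj
        rw [tc_one]
        have := congrArg (starRingEnd ℂ) h5
        rwa [Complex.conj_conj, map_one] at this
    · push Not at hB
      obtain ⟨f, hf⟩ := DD_dvd_of hp hB
      have he2 : f ∣ 8 := by
        rw [hf, mul_comm 8] at hd
        exact (mul_dvd_mul_iff_left (DD_ne hp V)).1 hd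
      have he3 : ¬ (8 : ZI) ∣ f := by
        intro h
        apply hnd
        rw [hf, mul_comm 8]
        exact mul_dvd_mul_left _ h
      have he4 : f ∣ pi1 ^ 5 := by
        rw [eight_eq_pi] at he2
        have hu : IsUnit (⟨0, 1⟩ : ZI) := IsUnit.of_mul_eq_one ⟨0, -1⟩ (by decide)
        have he5 : f ∣ pi1 ^ 6 := (hu.dvd_mul_right).1 he2
        obtain ⟨k, hk, hk2⟩ := (dvd_prime_pow pi1_prime 6).1 he5
        have hk3 : k ≠ 6 := by
          rintro rfl
          apply he3
          rw [eight_eq_pi]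
          exact (hu.mul_right_dvd).2 hk2.symm.dvd
        exact hk2.dvd.trans (pow_dvd_pow _ (by omega))
      have hDp := DD_prim hp V
      set D := DD pr V with hD
      set a : ZI := 1 + pi1 ^ 5 * D with ha
      have haD : D ∣ a - 1 := ⟨pi1 ^ 5, by rw [ha]; ring⟩
      have hp3 : (pi1 ^ 5 : ZI) = ⟨-4, -4⟩ := by decide
      have q3 : a.re = 1 - 4 * D.re + 4 * D.im := by
        rw [ha, hp3]
        simp only [Zsqrtd.re_add, re_mul', Zsqrtd.re_one]
        ring
      have q4 : a.im = -4 * D.re - 4 * D.im := by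
        rw [ha, hp3]
        simp only [Zsqrtd.im_add, im_mul', Zsqrtd.im_one]
        ring
      obtain ⟨d1, d2⟩ := hDp
      have hpa : prim a := ⟨by omega, by omega⟩
      have hsd : al a = -1 := by
        have h0 : wq a % 4 = 2 % 4 := by
          have h1 : ((nrm a : ℕ) : ℤ) = a.norm := by exact_mod_cast nrm_cast a
          rw [norm_def'] at h1
          obtain ⟨y, hy⟩ : ∃ y, D.im = 2 * y := ⟨D.im / 2, by omega⟩
          obtain ⟨x, hx⟩ : ∃ x, D.re = 2 * x + 1 := ⟨D.re / 2, by omega⟩
          rw [q3, q4, hx, hy] at h1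
          have h4 : ((nrm a : ℕ) : ℤ) = 9 + 16 * (1 - x + y + 8 * x ^ 2 + 8 * x + 8 * y ^ 2) := by
            rw [h1]; ring
          unfold wq
          omega
        unfold al
        rw [unit_pow_mod im1_norm h0]
        decide
      have hc4 : c4 pr V e a = 1 := by
        rw [c4_per hp V e haD, c4_one hp]
      have hX : XXx hp k V e a = -1 := by
        rw [XXx_prim hp k V e hpa, hsd, hc4, tc_neg, tc_one, mul_one,
          (Nat.odd_iff.2 hk).neg_one_pow, map_neg, map_one]
      refine ⟨a, ?_, ?_, ?_⟩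
      · rw [hD, cop_D8 hp V]
        refine ⟨prim_norm_odd hpa, fun j hj hd' => ?_⟩
        have h4 : pr j ∣ a - 1 := (dvd_DD hj).trans haD
        have h5 := dvd_sub hd' h4
        rw [sub_sub_cancel] at h5
        exact (hp.pp j).pr.not_isUnit (isUnit_of_dvd_one h5)
      · obtain ⟨g, hg⟩ := he4
        rw [hf]
        exact ⟨g, by rw [ha]; linear_combination D * hg⟩
      · rw [hX]
        norm_num

end Pool.Agent.L7h93.QX
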