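import Pool.Agent.L7h93.QX.Hcx
import Pool.Agent.L7h32.QD.LHD

/-!
# Project QX (helper3), part LHX: the central value of the Hecke character of conductor `8 D`
-/

set_option autoImplicit false
set_option linter.unusedSectionVars false
set_option linter.unusedVariables false

open Filter Complex
open scoped Topology PeriodPair Classical
open H667R3 hiding sq
open Pool.Agent.TH936.CM Pool.Agent.W192.HK

namespace Pool.Agent.L7h93.QX

open Pool.Agent.Y699
open Pool.Agent.L7h3.QX
open H385 (ZI RQ im1 nrm)
open Pool.Agent.H304R3.HK (tc HC LH chi_le)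
open Pool.Agent.W164.RC (tc_mul tc_star two2 prim_iff_dvd unit_cases)
open Pool.Agent.H304R2.EC.A1 (prim prim_mul prim_cancel prim_one prim_norm_odd prim_star eq_one_of_prim
  norm_def' re_mul' im_mul' eq_of_dvd prim_ne_zero)

variable {ι : Type} [DecidableEq ι] {pr : ι → ZI}

theorem sum_XXx (hH : S_HCX) (hp : PF pr) {V : Finset ι} {e : ι → ℕ} {k : ℕ} (hk : k % 2 = 1)
    (he : ∀ i ∈ V, e i % 4 ≠ 0) {δ : ℝ} (hδ : 0 < δ) :
    ∑' a : ZI, XXx hp k V e a * (starRingEnd ℂ) (fd δ (tc a)) =
      4 * (starRingEnd ℂ) (RS (ccx k pr V e) δ) := by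
  obtain ⟨L, Ω, hGL⟩ := exists_lat
  have H := hH ι pr hp V e k hk he
  have hs : Summable (fun a : ZI => XXx hp k V e a * (starRingEnd ℂ) (fd δ (tc a))) := by
    refine Summable.of_norm_bounded (summ_tc hGL.lat hδ).norm fun a => ?_
    rw [norm_mul, RCLike.norm_conj]
    exact mul_le_of_le_one_left (norm_nonneg _) (chi_le _ _ H a)
  rw [sum_units hs]
  · congr 1
    unfold RS
    rw [Complex.conj_tsum]
    refine tsum_congr fun a => ?_
    unfold ccx
    by_cases ha : prim a
    · rw [if_pos ha, if_pos ha, XXx_prim hp k V e ha]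
      simp only [map_mul]
    · rw [if_neg ha, if_neg ha, zero_mul, map_zero]
  · intro a
    have h1 : XXx hp k V e im1 = -I := H.unit
    rw [map_mul, h1, tc_mul, tc_im1, fd_mul]
    have h2 : Complex.normSq I = 1 := by simp
    rw [h2, mul_one, map_mul, map_inv₀, Complex.conj_I]
    have h3 : (-I : ℂ)⁻¹ = I := by
      rw [inv_neg, Complex.inv_I, neg_neg]
    rw [h3]
    linear_combination (-(XXx hp k V e a * (starRingEnd ℂ) (fd δ (tc a)))) * I_sq
  · intro a ha
    rw [XXx_apply, un_even ha, tc_zero]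
    simp

/-- the central value is the conjugate of the limit (with the conductor as a hypothesis) -/
theorem t_LHX' (hH : S_HCX) : S_LHX := by
  intro ι _ pr hp V e k hk he l hl
  have h1 := center (hH ι pr hp V e k hk he)
  have h2 : Tendsto (fun δ : ℝ => 4 * (starRingEnd ℂ) (RS (ccx k pr V e) (Real.pi * δ))) (𝓝[>] 0)
      (𝓝 (4 * (starRingEnd ℂ) l)) := by
    have h3 := tendsto_scale hl Real.pi_pos
    have h4 := (Complex.continuous_conj.tendsto l).comp h3
    have h5 := h4.const_mul 4
    refine h5.congr fun δ => ?_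
    simp only [Function.comp_apply]
    rw [mul_comm δ]
  have h3 := tendsto_nhds_unique h1 (h2.congr' (by
    filter_upwards [self_mem_nhdsWithin] with δ (hδ : 0 < δ)
    exact (sum_XXx hH hp hk he (by positivity)).symm))
  exact mul_left_cancel₀ (by norm_num) h3

theorem t_LHX : S_LHX := t_LHX' t_HCX

end Pool.Agent.L7h93.QX
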